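import Mathlib

/-!
Highest weight argument for the matrix `Y* Y`, `Y = (b_{ia} | b_{ia}^*)`, of canonical
anticommutation generators. Purely algebraic part.
-/

set_option autoImplicit false

namespace Pool.Agent.H707R2.CAR

open Finset

variable {A : Type*} [Ring A] {ι : Type*} [Fintype ι] [DecidableEq ι] {m : ℕ}

/-- Canonical anticommutation relations. -/
structure IsCAR (b b' : ι → Fin m → A) : Prop where
  bb : ∀ i k a c, b i a * b k c = -(b k c * b i a)
  b'b' : ∀ i k a c, b' i a * b' k c = -(b' k c * b' i a)
  bb' : ∀ i k a c, b i a * b' k c = -(b' k c * b i a) + if i = k ∧ a = c then 1 else 0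

variable (b b' : ι → Fin m → A)

/-- Bilinears `∑ b* b`. -/
def F (c d : Fin m) : A := ∑ i, b' i c * b i d
/-- Bilinears `∑ b* b*`. -/
def U (c d : Fin m) : A := ∑ i, b' i c * b' i d

variable {b b'}

lemma F_b (h : IsCAR b b') (c d a : Fin m) (i : ι) :
    F b b' c d * b i a = b i a * F b b' c d - if a = c then b i d else 0 := by
  unfold F
  rw [Finset.sum_mul, Finset.mul_sum]
  have : ∀ k ∈ (Finset.univ : Finset ι), b' k c * b k d * b i a =
      b i a * (b' k c * b k d) - if i = k then (if a = c then b i d else 0) else 0 := by
    intro k _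
    rw [mul_assoc, h.bb k i d a, ← mul_assoc, h.bb' i k a c]
    by_cases hik : i = k
    · subst hik
      by_cases hac : a = c
      · subst hac
        simp only [and_self, if_true]
        noncomm_ring
      · simp only [hac, and_false, if_false, if_true]
        noncomm_ring
    · simp only [hik, false_and, if_false]
      noncomm_ring
  rw [Finset.sum_congr rfl this, Finset.sum_sub_distrib]
  congr 1
  simp

lemma F_b' (h : IsCAR b b') (c d a : Fin m) (i : ι) :
    F b b' c d * b' i a = b' i a * F b b' c d + if a = d then b' i c else 0 := by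
  unfold F
  rw [Finset.sum_mul, Finset.mul_sum]
  have : ∀ k ∈ (Finset.univ : Finset ι), b' k c * b k d * b' i a =
      b' i a * (b' k c * b k d) + if i = k then (if a = d then b' i c else 0) else 0 := by
    intro k _
    rw [mul_assoc, h.bb' k i d a]
    by_cases hik : i = k
    · subst hik
      by_cases hac : a = d
      · subst hac
        simp only [and_self, if_true, mul_add, mul_neg, mul_one]
        rw [← mul_assoc, h.b'b' i i c a]
        noncomm_ring
      · simp only [hac, Ne.symm hac, and_false, if_false, if_true, mul_add, mul_neg, mul_zero]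
        rw [← mul_assoc, h.b'b' i i c a]
        noncomm_ring
    · simp only [hik, if_false, mul_add, mul_neg]
      rw [if_neg (fun h => hik h.1.symm), ← mul_assoc, h.b'b' k i c a]
      noncomm_ring
  rw [Finset.sum_congr rfl this, Finset.sum_add_distrib]
  congr 1
  simp

lemma U_b' (h : IsCAR b b') (c d a : Fin m) (i : ι) :
    U b' c d * b' i a = b' i a * U b' c d := by
  unfold U
  rw [Finset.sum_mul, Finset.mul_sum]
  refine Finset.sum_congr rfl fun k _ => ?_
  rw [mul_assoc, h.b'b' k i d a, mul_neg, ← mul_assoc, h.b'b' k i c a]
  noncomm_ring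

lemma U_b (h : IsCAR b b') (c d a : Fin m) (i : ι) :
    U b' c d * b i a = b i a * U b' c d + (if a = d then b' i c else 0)
      - (if a = c then b' i d else 0) := by
  unfold U
  rw [Finset.sum_mul, Finset.mul_sum]
  have : ∀ k ∈ (Finset.univ : Finset ι), b' k c * b' k d * b i a =
      b i a * (b' k c * b' k d) + (if i = k then (if a = d then b' i c else 0) else 0)
        - (if i = k then (if a = c then b' i d else 0) else 0) := by
    intro k _
    have h1 : b' k d * b i a = -(b i a * b' k d) + if i = k ∧ a = d then 1 else 0 := by
      rw [h.bb' i k a d]; abel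
    have h2 : b' k c * b i a = -(b i a * b' k c) + if i = k ∧ a = c then 1 else 0 := by
      rw [h.bb' i k a c]; abel
    rw [mul_assoc, h1, mul_add, mul_neg, ← mul_assoc, h2]
    by_cases hik : i = k
    · subst hik
      by_cases hac : a = c <;> by_cases had : a = d <;>
        simp [hac, had, add_mul, mul_assoc] <;> noncomm_ring
    · simp [hik, add_mul, mul_assoc]
  rw [Finset.sum_congr rfl this, Finset.sum_sub_distrib, Finset.sum_add_distrib]
  congr 1
  · congr 1
    simp
  · simp

end Pool.Agent.H707R2.CAR
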