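import Pool.Agent.H707R2.CAR.Ops

set_option autoImplicit false

namespace Pool.Agent.H707R2.CAR

open Finset

/-- Common kernel vector of raising operators. -/
theorem exists_highest {V : Type*} [AddCommGroup V] [Module ℂ V] (W : Submodule ℂ V)
    [FiniteDimensional ℂ W] (hW : W ≠ ⊥) (φ : V →ₗ[ℂ] V) (hφ : ∀ z ∈ W, φ z ∈ W)
    {σ : Type*} (R : σ → V →ₗ[ℂ] V) (hR : ∀ s, ∀ z ∈ W, R s z ∈ W) (t : σ → ℂ)
    (ht : ∀ s, 0 < (t s).re) (hcomm : ∀ s z, φ (R s z) = R s (φ z) + t s • R s z) :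
    ∃ z ∈ W, z ≠ 0 ∧ ∀ s, R s z = 0 := by
  have : Nontrivial W := Submodule.nontrivial_iff_ne_bot.2 hW
  let f : Module.End ℂ W := φ.restrict hφ
  obtain ⟨l0, hl0⟩ := Module.End.exists_eigenvalue f
  have hfin : Set.Finite {μ | f.HasEigenvalue μ} := f.finite_hasEigenvalue
  obtain ⟨l, hl, hmax⟩ := Finset.exists_max_image hfin.toFinset (fun μ : ℂ => μ.re)
    ⟨l0, by simpa using hl0⟩
  have hl' : f.HasEigenvalue l := by simpa using hl
  obtain ⟨z, hz⟩ := hl'.exists_hasEigenvector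
  have hz1 : f z = l • z := hz.apply_eq_smul
  have hz0 : z ≠ 0 := hz.2
  refine ⟨z, z.2, by simpa using hz0, fun s => ?_⟩
  by_contra hne
  let y : W := ⟨R s z, hR s z z.2⟩
  have hy0 : y ≠ 0 := by
    intro h
    exact hne (congrArg Subtype.val h)
  have hφz : φ (z : V) = l • (z : V) := by
    have := congrArg Subtype.val hz1
    simpa [f] using this
  have hy : f y = (l + t s) • y := by
    apply Subtype.ext
    simp only [f, y, LinearMap.restrict_apply, Submodule.coe_smul]
    rw [hcomm, hφz, map_smul, add_smul]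
  have hev : f.HasEigenvalue (l + t s) :=
    Module.End.hasEigenvalue_of_hasEigenvector ⟨Module.End.mem_eigenspace_iff.2 hy, hy0⟩
  have := hmax (l + t s) (by simpa using hev)
  simp only [Complex.add_re] at this
  linarith [ht s]

variable {A : Type*} [Ring A] [Algebra ℂ A] {ι : Type*} [Fintype ι] [DecidableEq ι] {m : ℕ}
variable {b b' : ι → Fin m → A}

lemma U_self (h : IsCAR b b') (c : Fin m) : U b' c c = 0 := by
  unfold U
  refine Finset.sum_eq_zero fun i _ => ?_
  have h1 := h.b'b' i i c c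
  have h2 : (2 : ℂ) • (b' i c * b' i c) = 0 := by
    rw [two_smul]
    nth_rewrite 1 [h1]
    simp
  exact (smul_eq_zero.1 h2).resolve_left two_ne_zero

lemma sum_bb' (h : IsCAR b b') (a c : Fin m) :
    ∑ i, b i a * b' i c = (if a = c then (Fintype.card ι : ℂ) • (1 : A) else 0) - F b b' c a := by
  unfold F
  have : ∀ i ∈ (Finset.univ : Finset ι), b i a * b' i c =
      (if a = c then (1 : A) else 0) - b' i c * b i a := by
    intro i _
    rw [h.bb' i i a c]
    simp only [true_and]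
    abel
  rw [Finset.sum_congr rfl this, Finset.sum_sub_distrib]
  congr 1
  split_ifs
  · rw [Finset.sum_const, Finset.card_univ, ← Nat.cast_smul_eq_nsmul ℂ]
  · simp

lemma T_fst (z : (Fin m → A) × (Fin m → A)) (r : Fin m) :
    (Top b b' z).1 r = ∑ c, F b b' r c * z.1 c + ∑ c, U b' r c * z.2 c := by
  simp only [Top, LinearMap.comp_apply, Ydop, Yop, LinearMap.coe_mk, AddHom.coe_mk, F, U,
    Finset.mul_sum, Finset.sum_mul]
  rw [Finset.sum_comm, ← Finset.sum_add_distrib]
  refine Finset.sum_congr rfl fun c _ => ?_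
  rw [← Finset.sum_add_distrib]
  refine Finset.sum_congr rfl fun i _ => ?_
  rw [mul_add, mul_assoc, mul_assoc]

lemma T_snd (h : IsCAR b b') (z : (Fin m → A) × (Fin m → A)) (hz : z.1 = 0) (r : Fin m) :
    (Top b b' z).2 r = (Fintype.card ι : ℂ) • z.2 r - ∑ c, F b b' c r * z.2 c := by
  have h1 : (Top b b' z).2 r = ∑ c, (∑ i, b i r * b' i c) * z.2 c := by
    simp only [Top, LinearMap.comp_apply, Ydop, Yop, LinearMap.coe_mk, AddHom.coe_mk,
      Finset.mul_sum, Finset.sum_mul, hz, Pi.zero_apply, mul_zero, zero_add]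
    rw [Finset.sum_comm]
    refine Finset.sum_congr rfl fun c _ => ?_
    refine Finset.sum_congr rfl fun i _ => ?_
    rw [mul_assoc]
  rw [h1]
  simp only [sum_bb' h, sub_mul, Finset.sum_sub_distrib, ite_mul, smul_mul_assoc, one_mul, zero_mul]
  congr 1
  simp

/-- The eigenvalue bound. -/
theorem eig_bound (h : IsCAR b b') (S : Submodule ℂ A) [FiniteDimensional ℂ S]
    (hSb : ∀ i a, ∀ s ∈ S, b i a * s ∈ S) (hSb' : ∀ i a, ∀ s ∈ S, b' i a * s ∈ S)
    (hκ : ∀ (r : Fin m) (κ : ℂ) (v : A), v ≠ 0 → F b b' r r * v = κ • v →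
      ‖κ‖ ≤ Fintype.card ι ∧ ‖(Fintype.card ι : ℂ) - κ‖ ≤ Fintype.card ι)
    (μ : ℂ) (z : (Fin m → A) × (Fin m → A)) (hz0 : z ≠ 0)
    (hz1 : ∀ a, z.1 a ∈ S) (hz2 : ∀ a, z.2 a ∈ S) (hz : Top b b' z = μ • z) :
    ‖μ‖ ≤ Fintype.card ι + (2 * (m : ℝ) - 2) := by
  classical
  -- the ambient finite dimensional space
  let W0 : Submodule ℂ ((Fin m → A) × (Fin m → A)) :=
    (Submodule.pi Set.univ fun _ => S).prod (Submodule.pi Set.univ fun _ => S)
  have memW0 : ∀ y : (Fin m → A) × (Fin m → A), y ∈ W0 ↔ (∀ a, y.1 a ∈ S) ∧ (∀ a, y.2 a ∈ S) := by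
    intro y
    simp [W0, Submodule.mem_prod, Submodule.mem_pi]
  have fdW0 : FiniteDimensional ℂ W0 := by
    let g : ((Fin m → S) × (Fin m → S)) →ₗ[ℂ] ((Fin m → A) × (Fin m → A)) :=
      LinearMap.prodMap (LinearMap.pi fun a => S.subtype ∘ₗ LinearMap.proj a)
        (LinearMap.pi fun a => S.subtype ∘ₗ LinearMap.proj a)
    have : W0 ≤ LinearMap.range g := by
      intro y hy
      obtain ⟨h1, h2⟩ := (memW0 y).1 hy
      exact ⟨(fun a => ⟨y.1 a, h1 a⟩, fun a => ⟨y.2 a, h2 a⟩), rfl⟩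
    exact Submodule.finiteDimensional_of_le this
  let W : Submodule ℂ ((Fin m → A) × (Fin m → A)) := W0 ⊓ LinearMap.ker (Top b b' - μ • LinearMap.id)
  have memW : ∀ y, y ∈ W ↔ y ∈ W0 ∧ Top b b' y = μ • y := by
    intro y
    simp [W, LinearMap.mem_ker, sub_eq_zero]
  have fdW : FiniteDimensional ℂ W := Submodule.finiteDimensional_of_le inf_le_left
  have hWne : W ≠ ⊥ := by
    intro hb
    have : z ∈ W := (memW z).2 ⟨(memW0 z).2 ⟨hz1, hz2⟩, hz⟩
    rw [hb] at this
    exact hz0 ((Submodule.mem_bot ℂ).1 this)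
  have hSF : ∀ c d, ∀ s ∈ S, F b b' c d * s ∈ S := by
    intro c d s hs
    rw [F, Finset.sum_mul]
    refine Submodule.sum_mem _ fun i _ => ?_
    rw [mul_assoc]
    exact hSb' i c _ (hSb i d s hs)
  have hSU : ∀ c d, ∀ s ∈ S, U b' c d * s ∈ S := by
    intro c d s hs
    rw [U, Finset.sum_mul]
    refine Submodule.sum_mem _ fun i _ => ?_
    rw [mul_assoc]
    exact hSb' i c _ (hSb' i d s hs)
  have hG0 : ∀ c d, ∀ y ∈ W0, Gop b b' c d y ∈ W0 := by
    intro c d y hy
    obtain ⟨h1, h2⟩ := (memW0 y).1 hy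
    refine (memW0 _).2 ⟨fun a => ?_, fun a => ?_⟩
    · simp only [Gop, LinearMap.coe_mk, AddHom.coe_mk]
      refine S.sub_mem (hSF c d _ (h1 a)) ?_
      split_ifs
      · exact h1 c
      · exact S.zero_mem
    · simp only [Gop, LinearMap.coe_mk, AddHom.coe_mk]
      refine S.add_mem (hSF c d _ (h2 a)) ?_
      split_ifs
      · exact h2 d
      · exact S.zero_mem
  have hU0 : ∀ c d, ∀ y ∈ W0, Uop b' c d y ∈ W0 := by
    intro c d y hy
    obtain ⟨h1, h2⟩ := (memW0 y).1 hy
    refine (memW0 _).2 ⟨fun a => ?_, fun a => ?_⟩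
    · simp only [Uop, LinearMap.coe_mk, AddHom.coe_mk]
      exact hSU c d _ (h1 a)
    · simp only [Uop, LinearMap.coe_mk, AddHom.coe_mk]
      refine S.sub_mem (S.add_mem (hSU c d _ (h2 a)) ?_) ?_
      · split_ifs
        · exact h1 d
        · exact S.zero_mem
      · split_ifs
        · exact h1 c
        · exact S.zero_mem
  have hG : ∀ c d, ∀ y ∈ W, Gop b b' c d y ∈ W := by
    intro c d y hy
    obtain ⟨h1, h2⟩ := (memW y).1 hy
    refine (memW _).2 ⟨hG0 c d y h1, ?_⟩
    rw [T_G h, h2, map_smul]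
  have hU : ∀ c d, ∀ y ∈ W, Uop b' c d y ∈ W := by
    intro c d y hy
    obtain ⟨h1, h2⟩ := (memW y).1 hy
    refine (memW _).2 ⟨hU0 c d y h1, ?_⟩
    rw [T_U h, h2, map_smul]
  let w : Fin m → ℂ := fun c => (((m : ℝ) - (c : ℕ) : ℝ) : ℂ)
  have hwre : ∀ c, (w c).re = (m : ℝ) - (c : ℕ) := fun c => Complex.ofReal_re _
  have hphi : ∀ y ∈ W, phi b b' w y ∈ W := by
    intro y hy
    simp only [phi, LinearMap.sum_apply, LinearMap.smul_apply]
    exact Submodule.sum_mem _ fun c _ => W.smul_mem _ (hG c c y hy)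
  let σ := {p : Fin m × Fin m // p.1 < p.2} ⊕ (Fin m × Fin m)
  let R : σ → ((Fin m → A) × (Fin m → A)) →ₗ[ℂ] ((Fin m → A) × (Fin m → A)) :=
    Sum.elim (fun p => Gop b b' p.1.1 p.1.2) (fun p => Uop b' p.1 p.2)
  let t : σ → ℂ := Sum.elim (fun p => w p.1.1 - w p.1.2) (fun p => w p.1 + w p.2)
  obtain ⟨y, hyW, hy0, hyR⟩ := exists_highest W hWne (phi b b' w) hphi R
    (by
      rintro (p | p) y hy
      · exact hG _ _ y hy
      · exact hU _ _ y hy) t
    (by
      rintro (p | p)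
      · have hlt : ((p.1.1 : ℕ) : ℝ) < ((p.1.2 : ℕ) : ℝ) := by exact_mod_cast p.2
        simp only [t, Sum.elim_inl, Complex.sub_re, hwre]
        linarith
      · have h1 : ((p.1 : ℕ) : ℝ) < m := by exact_mod_cast p.1.2
        have h2 : ((p.2 : ℕ) : ℝ) < m := by exact_mod_cast p.2.2
        simp only [t, Sum.elim_inr, Complex.add_re, hwre]
        linarith)
    (by
      rintro (p | p) y
      · exact phi_G h w _ _ y
      · exact phi_U h w _ _ y)
  have hyG : ∀ c d, c < d → Gop b b' c d y = 0 := fun c d hcd => hyR (Sum.inl ⟨(c, d), hcd⟩)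
  have hyU : ∀ c d, Uop b' c d y = 0 := fun c d => hyR (Sum.inr (c, d))
  have hyT : Top b b' y = μ • y := ((memW y).1 hyW).2
  have hyG1 : ∀ c d, c < d → ∀ a, F b b' c d * y.1 a = if a = d then y.1 c else 0 := by
    intro c d hcd a
    have := congrFun (congrArg Prod.fst (hyG c d hcd)) a
    simp only [Gop, LinearMap.coe_mk, AddHom.coe_mk, Prod.fst_zero, Pi.zero_apply] at this
    exact sub_eq_zero.1 this
  have hyG2 : ∀ c d, c < d → ∀ a, F b b' c d * y.2 a = -(if a = c then y.2 d else 0) := by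
    intro c d hcd a
    have := congrFun (congrArg Prod.snd (hyG c d hcd)) a
    simp only [Gop, LinearMap.coe_mk, AddHom.coe_mk, Prod.snd_zero, Pi.zero_apply] at this
    exact eq_neg_of_add_eq_zero_left this
  have hm : ∀ r : Fin m, (1 : ℝ) ≤ m := by
    intro r
    have : 0 < m := Fin.pos r
    exact_mod_cast this
  by_cases hp : y.1 = 0
  · -- second component only
    have hq : ∃ r, y.2 r ≠ 0 := by
      by_contra hcon
      push Not at hcon
      exact hy0 (Prod.ext hp (funext hcon))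
    obtain ⟨r, hr, hrmax⟩ := Finset.exists_max_image
      (Finset.univ.filter fun r => y.2 r ≠ 0) (fun r => r)
      (by obtain ⟨r, hr⟩ := hq; exact ⟨r, by simpa using hr⟩)
    have hr0 : y.2 r ≠ 0 := by simpa using hr
    have hrgt : ∀ c, r < c → y.2 c = 0 := by
      intro c hc
      by_contra hne
      exact absurd (hrmax c (by simpa using hne)) (not_le.2 hc)
    have h1 := T_snd h y hp r
    rw [hyT] at h1
    simp only [Prod.smul_snd, Pi.smul_apply] at h1
    have hterm : ∀ c ∈ (Finset.univ : Finset (Fin m)), F b b' c r * y.2 c =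
        (if c = r then F b b' r r * y.2 r else 0) + if c < r then -(y.2 r) else 0 := by
      intro c _
      rcases lt_trichotomy c r with hc | hc | hc
      · rw [hyG2 c r hc c, if_pos rfl, if_neg hc.ne, if_pos hc, zero_add]
      · subst hc
        simp
      · rw [hrgt c hc, if_neg hc.ne', if_neg (not_lt.2 hc.le)]
        simp
    rw [Finset.sum_congr rfl hterm, Finset.sum_add_distrib, Finset.sum_ite_eq' ,
      if_pos (Finset.mem_univ _)] at h1
    have hcard : ∑ c, (if c < r then -(y.2 r) else 0) = -((r : ℕ) : ℂ) • y.2 r := by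
      rw [← Finset.sum_filter, Finset.sum_const, ← Nat.cast_smul_eq_nsmul ℂ]
      have : (Finset.univ.filter fun c : Fin m => c < r).card = (r : ℕ) := by
        rw [show (Finset.univ.filter fun c : Fin m => c < r) = Finset.Iio r by ext; simp]
        simp
      rw [this]
      simp
    rw [hcard] at h1
    have h2 : F b b' r r * y.2 r = ((Fintype.card ι : ℂ) + ((r : ℕ) : ℂ) - μ) • y.2 r := by
      have : F b b' r r * y.2 r = (Fintype.card ι : ℂ) • y.2 r - -((r : ℕ) : ℂ) • y.2 r - μ • y.2 r := by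
        rw [h1]; abel
      rw [this]
      module
    have h3 := (hκ r _ _ hr0 h2).2
    have h4 : (Fintype.card ι : ℂ) - ((Fintype.card ι : ℂ) + ((r : ℕ) : ℂ) - μ) = μ - ((r : ℕ) : ℂ) := by
      ring
    rw [h4] at h3
    have h5 : ‖μ‖ ≤ ‖μ - ((r : ℕ) : ℂ)‖ + ‖((r : ℕ) : ℂ)‖ := by
      calc ‖μ‖ = ‖(μ - ((r : ℕ) : ℂ)) + ((r : ℕ) : ℂ)‖ := by congr 1; ring
        _ ≤ _ := norm_add_le _ _
    rw [Complex.norm_natCast] at h5
    have h6 : ((r : ℕ) : ℝ) ≤ m - 1 := by
      have : (r : ℕ) + 1 ≤ m := r.2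
      have : ((r : ℕ) : ℝ) + 1 ≤ m := by exact_mod_cast this
      linarith
    have := hm r
    linarith
  · have hq : ∃ r, y.1 r ≠ 0 := by
      by_contra hcon
      push Not at hcon
      exact hp (funext hcon)
    obtain ⟨r, hr, hrmin⟩ := Finset.exists_min_image
      (Finset.univ.filter fun r => y.1 r ≠ 0) (fun r => r)
      (by obtain ⟨r, hr⟩ := hq; exact ⟨r, by simpa using hr⟩)
    have hr0 : y.1 r ≠ 0 := by simpa using hr
    have hrlt : ∀ c, c < r → y.1 c = 0 := by
      intro c hc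
      by_contra hne
      exact absurd (hrmin c (by simpa using hne)) (not_le.2 hc)
    have h1 := T_fst (b := b) (b' := b') y r
    rw [hyT] at h1
    simp only [Prod.smul_fst, Pi.smul_apply] at h1
    have hterm : ∀ c ∈ (Finset.univ : Finset (Fin m)), F b b' r c * y.1 c =
        (if c = r then F b b' r r * y.1 r else 0) + if r < c then y.1 r else 0 := by
      intro c _
      rcases lt_trichotomy c r with hc | hc | hc
      · rw [hrlt c hc, if_neg hc.ne, if_neg (not_lt.2 hc.le)]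
        simp
      · subst hc
        simp
      · rw [hyG1 r c hc c, if_pos rfl, if_neg hc.ne', if_pos hc, zero_add]
    have htermU : ∀ c ∈ (Finset.univ : Finset (Fin m)), U b' r c * y.2 c =
        y.1 r - if c = r then y.1 r else 0 := by
      intro c _
      have h3 := congrFun (congrArg Prod.snd (hyU r c)) c
      simp only [Uop, LinearMap.coe_mk, AddHom.coe_mk, Prod.snd_zero, Pi.zero_apply, if_true] at h3
      by_cases hc : c = r
      · subst hc
        rw [U_self h]
        simp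
      · rw [if_neg hc] at h3
        rw [if_neg hc, sub_zero]
        have h4 : U b' r c * y.2 c + 0 - y.1 r = 0 := h3
        rw [add_zero] at h4
        exact sub_eq_zero.1 h4
    rw [Finset.sum_congr rfl hterm, Finset.sum_congr rfl htermU, Finset.sum_add_distrib,
      Finset.sum_sub_distrib, Finset.sum_ite_eq', Finset.sum_ite_eq',
      if_pos (Finset.mem_univ _), if_pos (Finset.mem_univ _)] at h1
    have hcard : ∑ c, (if r < c then y.1 r else 0) = ((m : ℂ) - 1 - ((r : ℕ) : ℂ)) • y.1 r := by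
      rw [← Finset.sum_filter, Finset.sum_const, ← Nat.cast_smul_eq_nsmul ℂ]
      have : (Finset.univ.filter fun c : Fin m => r < c).card = m - 1 - (r : ℕ) := by
        rw [show (Finset.univ.filter fun c : Fin m => r < c) = Finset.Ioi r by ext; simp]
        simp
      rw [this]
      congr 1
      have : (r : ℕ) + 1 ≤ m := r.2
      rw [Nat.cast_sub (by omega), Nat.cast_sub (by omega)]
      simp
    have hconst : ∑ _c : Fin m, y.1 r = (m : ℂ) • y.1 r := by
      rw [Finset.sum_const, Finset.card_univ, Fintype.card_fin, ← Nat.cast_smul_eq_nsmul ℂ]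
    rw [hcard, hconst] at h1
    have h2 : F b b' r r * y.1 r = (μ - (2 * (m : ℂ) - 2 - ((r : ℕ) : ℂ))) • y.1 r := by
      have : F b b' r r * y.1 r = μ • y.1 r - ((m : ℂ) - 1 - ((r : ℕ) : ℂ)) • y.1 r
          - (m : ℂ) • y.1 r + y.1 r := by
        rw [h1]; abel
      rw [this]
      module
    have h3 := (hκ r _ _ hr0 h2).1
    have h5 : ‖μ‖ ≤ ‖μ - (2 * (m : ℂ) - 2 - ((r : ℕ) : ℂ))‖ + ‖(2 * (m : ℂ) - 2 - ((r : ℕ) : ℂ))‖ := by
      calc ‖μ‖ = ‖(μ - (2 * (m : ℂ) - 2 - ((r : ℕ) : ℂ))) + (2 * (m : ℂ) - 2 - ((r : ℕ) : ℂ))‖ := by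
            congr 1; ring
        _ ≤ _ := norm_add_le _ _
    have h6 : ((r : ℕ) : ℝ) ≤ m - 1 := by
      have : (r : ℕ) + 1 ≤ m := r.2
      have : ((r : ℕ) : ℝ) + 1 ≤ m := by exact_mod_cast this
      linarith
    have h7 : ‖(2 * (m : ℂ) - 2 - ((r : ℕ) : ℂ))‖ ≤ 2 * (m : ℝ) - 2 := by
      have : (2 * (m : ℂ) - 2 - ((r : ℕ) : ℂ)) = (((2 * (m : ℝ) - 2 - ((r : ℕ) : ℝ)) : ℝ) : ℂ) := by
        push_cast; ring
      rw [this, Complex.norm_real, Real.norm_eq_abs, abs_of_nonneg]
      · have : (0 : ℝ) ≤ ((r : ℕ) : ℝ) := Nat.cast_nonneg _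
        linarith
      · have := hm r
        linarith
    linarith

end Pool.Agent.H707R2.CAR
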