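import Pool.Agent.H707R2.CAR.Main

set_option autoImplicit false

namespace Pool.Agent.H707R2.CAR

open Finset Complex

variable {A : Type*} [CStarAlgebra A] [PartialOrder A] [StarOrderedRing A]

/-- the corner embedding as a function -/
noncomputable def cornerFun {n : ℕ} (M : CStarMatrix (Fin n) (Fin n) A) :
    CStarMatrix (Fin (n + 1)) (Fin (n + 1)) A :=
  CStarMatrix.ofMatrix fun i j => Fin.lastCases (motive := fun _ => A) 0
    (fun i' => Fin.lastCases (motive := fun _ => A) 0 (fun j' => M i' j') j) i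

omit [PartialOrder A] [StarOrderedRing A] in
lemma cornerFun_cc {n : ℕ} (M : CStarMatrix (Fin n) (Fin n) A) (i j : Fin n) :
    cornerFun M i.castSucc j.castSucc = M i j := by
  change Fin.lastCases (motive := fun _ => A) 0 _ _ = _
  simp
omit [PartialOrder A] [StarOrderedRing A] in
lemma cornerFun_cl {n : ℕ} (M : CStarMatrix (Fin n) (Fin n) A) (i : Fin n) :
    cornerFun M i.castSucc (Fin.last n) = 0 := by
  change Fin.lastCases (motive := fun _ => A) 0 _ _ = _
  simp
omit [PartialOrder A] [StarOrderedRing A] in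
lemma cornerFun_l {n : ℕ} (M : CStarMatrix (Fin n) (Fin n) A) (j : Fin (n + 1)) :
    cornerFun M (Fin.last n) j = 0 := by
  change Fin.lastCases (motive := fun _ => A) 0 _ _ = _
  simp

/-- the corner embedding -/
noncomputable def corner (A : Type*) [CStarAlgebra A] [PartialOrder A] [StarOrderedRing A] (n : ℕ) :
    CStarMatrix (Fin n) (Fin n) A →⋆ₙₐ[ℂ] CStarMatrix (Fin (n + 1)) (Fin (n + 1)) A where
  toFun := cornerFun
  map_smul' t M := by
    ext i j
    refine Fin.lastCases ?_ (fun i' => ?_) i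
    · simp [cornerFun_l]
    · refine Fin.lastCases ?_ (fun j' => ?_) j
      · simp [cornerFun_cl]
      · simp [cornerFun_cc]
  map_zero' := by
    ext i j
    refine Fin.lastCases ?_ (fun i' => ?_) i
    · simp [cornerFun_l]
    · refine Fin.lastCases ?_ (fun j' => ?_) j
      · simp [cornerFun_cl]
      · simp [cornerFun_cc]
  map_add' M N := by
    ext i j
    refine Fin.lastCases ?_ (fun i' => ?_) i
    · simp [cornerFun_l]
    · refine Fin.lastCases ?_ (fun j' => ?_) j
      · simp [cornerFun_cl]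
      · simp [cornerFun_cc]
  map_mul' M N := by
    ext i j
    rw [CStarMatrix.mul_apply, Fin.sum_univ_castSucc]
    refine Fin.lastCases ?_ (fun i' => ?_) i
    · simp [cornerFun_l]
    · refine Fin.lastCases ?_ (fun j' => ?_) j
      · simp [cornerFun_cl, cornerFun_l]
      · simp [cornerFun_cc, cornerFun_cl, cornerFun_l, CStarMatrix.mul_apply]
  map_star' M := by
    ext i j
    rw [CStarMatrix.star_apply]
    refine Fin.lastCases ?_ (fun i' => ?_) i
    · refine Fin.lastCases ?_ (fun j' => ?_) j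
      · simp [cornerFun_l]
      · simp [cornerFun_l, cornerFun_cl]
    · refine Fin.lastCases ?_ (fun j' => ?_) j
      · simp [cornerFun_cl, cornerFun_l]
      · simp [cornerFun_cc, CStarMatrix.star_apply]

lemma corner_norm (n : ℕ) (M : CStarMatrix (Fin n) (Fin n) A) : ‖corner A n M‖ = ‖M‖ := by
  apply NonUnitalStarAlgHom.norm_map
  intro M N h
  ext i j
  have := congrFun (congrFun (congrArg (fun X : CStarMatrix _ _ A => (X : Matrix _ _ A)) h)
    i.castSucc) j.castSucc
  have h1 : cornerFun M i.castSucc j.castSucc = cornerFun N i.castSucc j.castSucc := this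
  rwa [cornerFun_cc, cornerFun_cc] at h1

/-- norms of upper left corners increase -/
lemma norm_corner_le (c : ℕ → ℕ → A) (n : ℕ) :
    ‖(CStarMatrix.ofMatrix (fun i j => c i j : Matrix (Fin n) (Fin n) A) :
      CStarMatrix (Fin n) (Fin n) A)‖ ≤
    ‖(CStarMatrix.ofMatrix (fun i j => c i j : Matrix (Fin (n + 1)) (Fin (n + 1)) A) :
      CStarMatrix (Fin (n + 1)) (Fin (n + 1)) A)‖ := by
  set X : CStarMatrix (Fin n) (Fin n) A :=
    CStarMatrix.ofMatrix (fun i j => c i j : Matrix (Fin n) (Fin n) A) with hX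
  set Y : CStarMatrix (Fin (n + 1)) (Fin (n + 1)) A :=
    CStarMatrix.ofMatrix (fun i j => c i j : Matrix (Fin (n + 1)) (Fin (n + 1)) A) with hY
  have h1 : ‖corner A n 1‖ ≤ 1 := by
    rw [corner_norm]
    by_cases hnt : Nontrivial (CStarMatrix (Fin n) (Fin n) A)
    · rw [CStarRing.norm_one]
    · rw [not_nontrivial_iff_subsingleton] at hnt
      rw [Subsingleton.elim (1 : CStarMatrix (Fin n) (Fin n) A) 0, norm_zero]
      exact zero_le_one
  have h2 : corner A n X = corner A n 1 * Y * corner A n 1 := by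
    ext i j
    change cornerFun X i j = (cornerFun 1 * Y * cornerFun 1 : CStarMatrix _ _ A) i j
    rw [CStarMatrix.mul_apply, Fin.sum_univ_castSucc]
    simp only [CStarMatrix.mul_apply, Fin.sum_univ_castSucc]
    refine Fin.lastCases ?_ (fun i' => ?_) i
    · simp [cornerFun_l]
    · refine Fin.lastCases ?_ (fun j' => ?_) j
      · simp [cornerFun_cl, cornerFun_l]
      · simp only [cornerFun_cc, cornerFun_cl, cornerFun_l, CStarMatrix.one_apply, ite_mul, one_mul,
          zero_mul, mul_zero, add_zero, Finset.sum_ite_eq, Finset.mem_univ, if_true, mul_ite,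
          mul_one, Finset.sum_ite_eq']
        rfl
  rw [← corner_norm, h2]
  calc ‖corner A n 1 * Y * corner A n 1‖ ≤ ‖corner A n 1 * Y‖ * ‖corner A n 1‖ := norm_mul_le _ _
    _ ≤ (‖corner A n 1‖ * ‖Y‖) * ‖corner A n 1‖ := by gcongr; exact norm_mul_le _ _
    _ ≤ (1 * ‖Y‖) * 1 := by gcongr
    _ = ‖Y‖ := by ring

/-- The sharp bound for even `n`. -/
theorem even_bound (c : ℕ → ℕ → A) (hs : ∀ i j, IsSelfAdjoint (c i j))
    (hc : ∀ i j k l, c i j * c k l + c k l * c i j = if i = k ∧ j = l then 2 else 0)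
    (m : ℕ) (hm : 1 ≤ m) :
    ‖(CStarMatrix.ofMatrix (fun i j => c i j : Matrix (Fin (2 * m)) (Fin (2 * m)) A) :
      CStarMatrix (Fin (2 * m)) (Fin (2 * m)) A)‖ ^ 2 ≤ 4 * ((2 * m : ℕ) : ℝ) - 4 := by
  let e : Fin m × Bool ≃ Fin (2 * m) := Fintype.equivOfCardEq (by simp [mul_comm])
  let c' : Fin (2 * m) → Fin (2 * m) → A := fun i j => c i j
  have hc' : Anti c' := by
    intro i j k l
    have := hc i j k l
    simp only [Fin.val_inj] at this
    exact this
  have h := gram_bound (A := A) hm c' (fun i j => hs i j) hc' e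
  set X : CStarMatrix (Fin (2 * m)) (Fin (2 * m)) A :=
    CStarMatrix.ofMatrix (fun i j => c i j : Matrix (Fin (2 * m)) (Fin (2 * m)) A) with hX
  have hXX : (CStarMatrix.ofMatrix (fun j k => ∑ i, c' i j * c' i k :
      Matrix (Fin (2 * m)) (Fin (2 * m)) A) : CStarMatrix (Fin (2 * m)) (Fin (2 * m)) A) =
      star X * X := by
    ext j k
    rw [CStarMatrix.mul_apply]
    change ∑ i, c' i j * c' i k = _
    refine Finset.sum_congr rfl fun i _ => ?_
    rw [CStarMatrix.star_apply]
    change _ = star (c i j) * c i k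
    rw [(hs _ _).star_eq]
  rw [hXX, CStarRing.norm_star_mul_self] at h
  rw [sq]
  refine h.trans (le_of_eq ?_)
  simp only [Fintype.card_fin]
  push_cast
  ring

/-- Uniform bound. -/
theorem main (c : ℕ → ℕ → A) (hs : ∀ i j, IsSelfAdjoint (c i j))
    (hc : ∀ i j k l, c i j * c k l + c k l * c i j = if i = k ∧ j = l then 2 else 0)
    (n : ℕ) (hn : 1 ≤ n) :
    ‖(CStarMatrix.ofMatrix (fun i j => c i j : Matrix (Fin n) (Fin n) A) :
      CStarMatrix (Fin n) (Fin n) A)‖ ≤ 2 * Real.sqrt n := by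
  have hgoal : ‖(CStarMatrix.ofMatrix (fun i j => c i j : Matrix (Fin n) (Fin n) A) :
      CStarMatrix (Fin n) (Fin n) A)‖ ^ 2 ≤ 4 * (n : ℝ) := by
    rcases Nat.even_or_odd' n with ⟨m, rfl | rfl⟩
    · have := even_bound c hs hc m (by omega)
      linarith
    · have h1 := even_bound c hs hc (m + 1) (by omega)
      have h2 := norm_corner_le c (2 * m + 1)
      have h3 : ‖(CStarMatrix.ofMatrix (fun i j => c i j : Matrix (Fin (2 * m + 1)) (Fin (2 * m + 1)) A) :
        CStarMatrix (Fin (2 * m + 1)) (Fin (2 * m + 1)) A)‖ ^ 2 ≤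
        ‖(CStarMatrix.ofMatrix (fun i j => c i j : Matrix (Fin (2 * m + 1 + 1)) (Fin (2 * m + 1 + 1)) A) :
        CStarMatrix (Fin (2 * m + 1 + 1)) (Fin (2 * m + 1 + 1)) A)‖ ^ 2 :=
        pow_le_pow_left₀ (norm_nonneg _) h2 2
      have h4 : 2 * (m + 1) = 2 * m + 1 + 1 := by ring
      rw [h4] at h1
      refine h3.trans (h1.trans (le_of_eq ?_))
      push_cast
      ring
  have h5 : (0 : ℝ) ≤ 2 * Real.sqrt n := by positivity
  refine abs_le_of_sq_le_sq' ?_ h5 |>.2
  rw [mul_pow, Real.sq_sqrt (Nat.cast_nonneg n)]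
  linarith

end Pool.Agent.H707R2.CAR
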