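import Mathlib

set_option autoImplicit false

namespace Pool.Agent.H707R2.CAR

open Finset

/-- Norm of a self-adjoint matrix over a C*-algebra via eigenvectors in a finite dimensional
left invariant subspace containing `1`. -/
theorem norm_le_of_eig {κ : Type*} [Fintype κ] [DecidableEq κ] {A : Type*} [CStarAlgebra A]
    [PartialOrder A] [StarOrderedRing A] (S : Submodule ℂ A) [FiniteDimensional ℂ S]
    (h1 : (1 : A) ∈ S) (M : CStarMatrix κ κ A) (hsa : IsSelfAdjoint M)
    (hS : ∀ j k, ∀ s ∈ S, M j k * s ∈ S) (C : ℝ) (hC : 0 ≤ C)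
    (heig : ∀ (μ : ℂ) (ξ : κ → A), (∀ k, ξ k ∈ S) → ξ ≠ 0 →
      (∀ j, ∑ k, M j k * ξ k = μ • ξ j) → ‖μ‖ ≤ C) : ‖M‖ ≤ C := by
  have hrad : spectralRadius ℂ M = ‖M‖₊ := hsa.spectralRadius_eq_nnnorm
  obtain ⟨C', rfl⟩ : ∃ C' : NNReal, (C' : ℝ) = C := ⟨⟨C, hC⟩, rfl⟩
  have key : spectralRadius ℂ M ≤ (C' : ENNReal) := by
    refine iSup₂_le fun μ hμ => ?_
    rw [ENNReal.coe_le_coe, ← NNReal.coe_le_coe]
    change ‖μ‖ ≤ C'
    by_contra hlt
    have hre : μ = (μ.re : ℂ) := hsa.mem_spectrum_eq_re hμ
    apply spectrum.mem_iff.1 hμ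
    let N : CStarMatrix κ κ A := algebraMap ℂ _ μ - M
    have hNapp : ∀ j k, N j k = (if j = k then algebraMap ℂ A μ else 0) - M j k := by
      intro j k
      simp only [N, CStarMatrix.sub_apply, CStarMatrix.algebraMap_apply]
    have hNstar : star N = N := by
      simp only [N, star_sub, hsa.star_eq]
      congr 1
      rw [← algebraMap_star_comm, hre]
      simp
    let W : Submodule ℂ (κ → A) := Submodule.pi Set.univ fun _ => S
    have memW : ∀ y : κ → A, y ∈ W ↔ ∀ a, y a ∈ S := by
      intro y; simp [W, Submodule.mem_pi]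
    have fdW : FiniteDimensional ℂ W := by
      let g : (κ → S) →ₗ[ℂ] (κ → A) := LinearMap.pi fun a => S.subtype ∘ₗ LinearMap.proj a
      have : W ≤ LinearMap.range g := by
        intro y hy
        exact ⟨fun a => ⟨y a, (memW y).1 hy a⟩, rfl⟩
      exact Submodule.finiteDimensional_of_le this
    let L : (κ → A) →ₗ[ℂ] (κ → A) :=
      { toFun := fun ξ j => μ • ξ j - ∑ k, M j k * ξ k
        map_add' := by
          intro x y
          funext j
          simp only [Pi.add_apply, smul_add, mul_add, Finset.sum_add_distrib]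
          abel
        map_smul' := by
          intro t x
          funext j
          simp only [Pi.smul_apply, mul_smul_comm, RingHom.id_apply, smul_sub, Finset.smul_sum,
            smul_comm μ t] }
    have hL : ∀ y ∈ W, L y ∈ W := by
      intro y hy
      rw [memW] at hy ⊢
      intro j
      exact S.sub_mem (S.smul_mem _ (hy j)) (Submodule.sum_mem _ fun k _ => hS j k _ (hy k))
    let L' : W →ₗ[ℂ] W := L.restrict hL
    have hinj : Function.Injective L' := by
      rw [← LinearMap.ker_eq_bot, Submodule.eq_bot_iff]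
      intro y hy
      by_contra hne
      have hy' : L (y : κ → A) = 0 := by
        have := congrArg Subtype.val (LinearMap.mem_ker.1 hy)
        simpa [L'] using this
      apply hlt
      refine heig μ y ((memW _).1 y.2) (fun h => hne (Subtype.ext h)) fun j => ?_
      have := congrFun hy' j
      simp only [L, LinearMap.coe_mk, AddHom.coe_mk, Pi.zero_apply] at this
      exact (sub_eq_zero.1 this).symm
    have hsurj : Function.Surjective L' := LinearMap.injective_iff_surjective.1 hinj
    have hcol : ∀ l : κ, ∃ u : κ → A, L u = Pi.single l 1 := by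
      intro l
      have hmem : (Pi.single l 1 : κ → A) ∈ W := by
        rw [memW]
        intro a
        by_cases ha : a = l
        · subst ha; simpa using h1
        · rw [Pi.single_eq_of_ne ha]; exact S.zero_mem
      obtain ⟨y, hy⟩ := hsurj ⟨_, hmem⟩
      refine ⟨y, ?_⟩
      have := congrArg Subtype.val hy
      simpa [L'] using this
    choose u hu using hcol
    let V : CStarMatrix κ κ A := CStarMatrix.ofMatrix fun j l => u l j
    have hNV : N * V = 1 := by
      ext j l
      rw [CStarMatrix.mul_apply, CStarMatrix.one_apply]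
      have h2 := congrFun (hu l) j
      simp only [L, LinearMap.coe_mk, AddHom.coe_mk] at h2
      have h3 : ∑ k, N j k * V k l = μ • u l j - ∑ k, M j k * u l k := by
        simp only [hNapp, sub_mul, Finset.sum_sub_distrib, ite_mul, zero_mul, Finset.sum_ite_eq,
          Finset.mem_univ, if_true]
        congr 1
        rw [Algebra.smul_def]
        rfl
      rw [h3, h2]
      by_cases hjl : j = l
      · subst hjl; simp
      · rw [Pi.single_eq_of_ne hjl, if_neg hjl]
    have hVN : star V * N = 1 := by
      have := congrArg star hNV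
      rwa [star_mul, hNstar, star_one] at this
    have hVV : star V = V := by
      calc star V = star V * (N * V) := by rw [hNV, mul_one]
        _ = V := by rw [← mul_assoc, hVN, one_mul]
    exact ⟨⟨N, V, hNV, by rw [← hVV]; exact hVN⟩, rfl⟩
  rw [hrad, ENNReal.coe_le_coe, ← NNReal.coe_le_coe] at key
  exact key

/-- A finite list of anticommuting elements with scalar squares generates a finite dimensional
left invariant subspace containing `1`. -/
theorem exists_fd {A : Type*} [Ring A] [Algebra ℂ A] (l : List A) (hsq : ∀ x ∈ l, x * x = 1)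
    (hanti : l.Pairwise fun x y => x * y = -(y * x)) :
    ∃ S : Submodule ℂ A, FiniteDimensional ℂ S ∧ (1 : A) ∈ S ∧ ∀ x ∈ l, ∀ s ∈ S, x * s ∈ S := by
  induction l with
  | nil =>
    exact ⟨Submodule.span ℂ {1}, inferInstance, Submodule.mem_span_singleton_self 1, by simp⟩
  | cons x l ih =>
    rw [List.pairwise_cons] at hanti
    obtain ⟨S, hfd, h1, hS⟩ := ih (fun y hy => hsq y (List.mem_cons_of_mem _ hy)) hanti.2
    let g : A →ₗ[ℂ] A := LinearMap.mulLeft ℂ x
    refine ⟨S ⊔ S.map g, inferInstance, Submodule.mem_sup_left h1, ?_⟩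
    intro y hy s hs
    obtain ⟨s1, hs1, s2, hs2, rfl⟩ := Submodule.mem_sup.1 hs
    obtain ⟨s3, hs3, rfl⟩ := Submodule.mem_map.1 hs2
    rw [mul_add]
    rcases List.mem_cons.1 hy with rfl | hy'
    · refine Submodule.add_mem _ (Submodule.mem_sup_right ⟨s1, hs1, rfl⟩) ?_
      have : y * (g s3) = s3 := by
        simp only [g, LinearMap.mulLeft_apply]
        rw [← mul_assoc, hsq y (List.mem_cons_self), one_mul]
      rw [this]
      exact Submodule.mem_sup_left hs3
    · refine Submodule.add_mem _ (Submodule.mem_sup_left (hS y hy' s1 hs1)) ?_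
      have : y * (g s3) = g (-(y * s3)) := by
        simp only [g, LinearMap.mulLeft_apply]
        rw [← mul_assoc, mul_neg, ← mul_assoc, hanti.1 y hy', neg_mul, neg_neg]
      rw [this]
      exact Submodule.mem_sup_right ⟨_, S.neg_mem (hS y hy' s3 hs3), rfl⟩

end Pool.Agent.H707R2.CAR
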