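import Pool.Agent.H707R2.CAR.Eig
import Pool.Agent.H707R2.CAR.Spec

set_option autoImplicit false

namespace Pool.Agent.H707R2.CAR

open Finset Complex

section Ring

variable {A : Type*} [Ring A] [Algebra ℂ A] {ι : Type*} [Fintype ι] [DecidableEq ι] {m : ℕ}
variable {κ : Type*} [Fintype κ] [DecidableEq κ]

/-- annihilators from pairs of columns -/
noncomputable def bb (e : Fin m × Bool ≃ κ) (c : ι → κ → A) (i : ι) (a : Fin m) : A :=
  (1 / 2 : ℂ) • (c i (e (a, false)) + I • c i (e (a, true)))
/-- creators from pairs of columns -/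
noncomputable def bb' (e : Fin m × Bool ≃ κ) (c : ι → κ → A) (i : ι) (a : Fin m) : A :=
  (1 / 2 : ℂ) • (c i (e (a, false)) - I • c i (e (a, true)))

/-- the anticommutation relations for the `c`'s -/
def Anti (c : ι → κ → A) : Prop :=
  ∀ i j k l, c i j * c k l + c k l * c i j = if i = k ∧ j = l then 2 else 0

omit [Fintype ι] [Fintype κ] in
lemma anti_expand (c : ι → κ → A) (hc : Anti c) (e : Fin m × Bool ≃ κ) (i k : ι) (a d : Fin m)
    (s t : ℂ) :
    ((1 / 2 : ℂ) • (c i (e (a, false)) + s • c i (e (a, true)))) *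
        ((1 / 2 : ℂ) • (c k (e (d, false)) + t • c k (e (d, true)))) +
      ((1 / 2 : ℂ) • (c k (e (d, false)) + t • c k (e (d, true)))) *
        ((1 / 2 : ℂ) • (c i (e (a, false)) + s • c i (e (a, true)))) =
      if i = k ∧ a = d then ((1 + s * t) / 2) • (1 : A) else 0 := by
  have h00 := hc i (e (a, false)) k (e (d, false))
  have h01 := hc i (e (a, false)) k (e (d, true))
  have h10 := hc i (e (a, true)) k (e (d, false))
  have h11 := hc i (e (a, true)) k (e (d, true))
  simp only [EmbeddingLike.apply_eq_iff_eq, Prod.mk.injEq, and_true, Bool.false_eq_true, and_false,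
    if_false, Bool.true_eq_false] at h00 h01 h10 h11
  have key : ((1 / 2 : ℂ) • (c i (e (a, false)) + s • c i (e (a, true)))) *
        ((1 / 2 : ℂ) • (c k (e (d, false)) + t • c k (e (d, true)))) +
      ((1 / 2 : ℂ) • (c k (e (d, false)) + t • c k (e (d, true)))) *
        ((1 / 2 : ℂ) • (c i (e (a, false)) + s • c i (e (a, true)))) =
      (1 / 4 : ℂ) • (c i (e (a, false)) * c k (e (d, false)) + c k (e (d, false)) * c i (e (a, false)))
      + (t / 4) • (c i (e (a, false)) * c k (e (d, true)) + c k (e (d, true)) * c i (e (a, false)))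
      + (s / 4) • (c i (e (a, true)) * c k (e (d, false)) + c k (e (d, false)) * c i (e (a, true)))
      + (s * t / 4) • (c i (e (a, true)) * c k (e (d, true)) + c k (e (d, true)) * c i (e (a, true))) := by
    simp only [smul_mul_assoc, mul_smul_comm, mul_add, add_mul, smul_smul]
    module
  rw [key, h00, h01, h10, h11]
  by_cases h : i = k ∧ a = d
  · simp only [h, if_true, smul_zero, add_zero, and_self]
    have : (2 : A) = (2 : ℂ) • (1 : A) := by
      rw [two_smul]; norm_num
    rw [this]
    simp only [smul_smul, ← add_smul]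
    congr 1
    ring
  · simp only [h, if_false, smul_zero, add_zero]

omit [Fintype ι] [Fintype κ] in
lemma isCAR (c : ι → κ → A) (hc : Anti c) (e : Fin m × Bool ≃ κ) : IsCAR (bb e c) (bb' e c) := by
  refine ⟨?_, ?_, ?_⟩
  · intro i k a d
    have h := anti_expand c hc e i k a d I I
    rw [I_mul_I] at h
    simp only [add_neg_cancel, zero_div, zero_smul, ite_self] at h
    exact eq_neg_of_add_eq_zero_left h
  · intro i k a d
    have h := anti_expand c hc e i k a d (-I) (-I)
    rw [neg_mul_neg, I_mul_I] at h
    simp only [add_neg_cancel, zero_div, zero_smul, ite_self, neg_smul, ← sub_eq_add_neg] at h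
    exact eq_neg_of_add_eq_zero_left h
  · intro i k a d
    have h := anti_expand c hc e i k a d I (-I)
    rw [mul_neg, I_mul_I, neg_neg, one_add_one_eq_two, div_self two_ne_zero, one_smul] at h
    simp only [neg_smul, ← sub_eq_add_neg] at h
    rw [← h]
    simp only [bb, bb']
    abel

end Ring

section CStar

variable {A : Type*} [CStarAlgebra A] [PartialOrder A] [StarOrderedRing A]
variable {ι : Type*} [Fintype ι] [DecidableEq ι] {m : ℕ}
variable {κ : Type*} [Fintype κ] [DecidableEq κ]

omit [PartialOrder A] [StarOrderedRing A] [Fintype ι] [Fintype κ] in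
lemma norm_c_le [Nontrivial A] (c : ι → κ → A) (hs : ∀ i j, IsSelfAdjoint (c i j)) (hc : Anti c)
    (i : ι) (j : κ) : ‖c i j‖ ≤ 1 := by
  have h1 : c i j * c i j = 1 := by
    have h := hc i j i j
    simp only [and_self, if_true] at h
    have h2 : (2 : ℂ) • (c i j * c i j) = (2 : ℂ) • (1 : A) := by
      rw [two_smul, two_smul, h]; norm_num
    exact smul_right_injective A (two_ne_zero (α := ℂ)) h2
  have h2 : ‖star (c i j) * c i j‖ = ‖c i j‖ * ‖c i j‖ := CStarRing.norm_star_mul_self
  rw [(hs i j).star_eq, h1, CStarRing.norm_one] at h2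
  nlinarith [norm_nonneg (c i j)]

theorem gram_bound (hm : 1 ≤ m) (c : ι → κ → A) (hs : ∀ i j, IsSelfAdjoint (c i j)) (hc : Anti c)
    (e : Fin m × Bool ≃ κ) :
    ‖(CStarMatrix.ofMatrix (fun j k => ∑ i, c i j * c i k : Matrix κ κ A) : CStarMatrix κ κ A)‖ ≤
      2 * (Fintype.card ι + (2 * (m : ℝ) - 2)) := by
  classical
  -- finite dimensional invariant subspace
  obtain ⟨S, hfd, h1S, hS⟩ := exists_fd
    ((Finset.univ : Finset (ι × κ)).toList.map fun p => c p.1 p.2)
    (by
      intro x hx
      obtain ⟨p, -, rfl⟩ := List.mem_map.1 hx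
      have h := hc p.1 p.2 p.1 p.2
      simp only [and_self, if_true] at h
      have h2 : (2 : ℂ) • (c p.1 p.2 * c p.1 p.2) = (2 : ℂ) • (1 : A) := by
        rw [two_smul, two_smul, h]; norm_num
      exact smul_right_injective A (two_ne_zero (α := ℂ)) h2)
    (by
      rw [List.pairwise_map]
      have hnd : (Finset.univ : Finset (ι × κ)).toList.Nodup := Finset.nodup_toList _
      refine hnd.imp ?_
      intro p q hpq
      have h := hc p.1 p.2 q.1 q.2
      rw [if_neg] at h
      · exact eq_neg_of_add_eq_zero_left h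
      · rintro ⟨h1, h2⟩
        exact hpq (Prod.ext h1 h2))
  have hcS : ∀ i j, ∀ s ∈ S, c i j * s ∈ S := by
    intro i j s hs
    refine hS _ ?_ s hs
    exact List.mem_map.2 ⟨(i, j), by simp, rfl⟩
  have hbS : ∀ i a, ∀ s ∈ S, bb e c i a * s ∈ S := by
    intro i a s hs
    simp only [bb, smul_mul_assoc, add_mul]
    exact S.smul_mem _ (S.add_mem (hcS _ _ _ hs) (S.smul_mem _ (hcS _ _ _ hs)))
  have hbS' : ∀ i a, ∀ s ∈ S, bb' e c i a * s ∈ S := by
    intro i a s hs
    simp only [bb', smul_mul_assoc, sub_mul]
    exact S.smul_mem _ (S.sub_mem (hcS _ _ _ hs) (S.smul_mem _ (hcS _ _ _ hs)))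
  have hCnn : 0 ≤ 2 * (Fintype.card ι + (2 * (m : ℝ) - 2)) := by
    have : (1 : ℝ) ≤ m := by exact_mod_cast hm
    have : (0 : ℝ) ≤ Fintype.card ι := Nat.cast_nonneg _
    linarith
  refine norm_le_of_eig S h1S _ ?_ ?_ _ hCnn ?_
  · -- self adjoint
    ext j k
    rw [CStarMatrix.star_apply]
    change star (∑ i, c i k * c i j) = ∑ i, c i j * c i k
    rw [star_sum]
    refine Finset.sum_congr rfl fun i _ => ?_
    rw [star_mul, (hs i j).star_eq, (hs i k).star_eq]
  · intro j k s hs
    change (∑ i, c i j * c i k) * s ∈ S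
    simp only [Finset.sum_mul, mul_assoc]
    exact Submodule.sum_mem _ fun i _ => hcS _ _ _ (hcS _ _ _ hs)
  · intro μ ξ hξS hξ0 hξ
    replace hξ : ∀ j, ∑ k, (∑ i, c i j * c i k) * ξ k = μ • ξ j := hξ
    let z : (Fin m → A) × (Fin m → A) :=
      (fun a => ξ (e (a, false)) - I • ξ (e (a, true)),
        fun a => ξ (e (a, false)) + I • ξ (e (a, true)))
    have hII : I * I = -1 := I_mul_I
    have hz0 : z ≠ 0 := by
      intro hz
      apply hξ0
      funext k
      have h1 : ∀ a, ξ (e (a, false)) - I • ξ (e (a, true)) = 0 := fun a =>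
        congrFun (congrArg Prod.fst hz) a
      have h2 : ∀ a, ξ (e (a, false)) + I • ξ (e (a, true)) = 0 := fun a =>
        congrFun (congrArg Prod.snd hz) a
      obtain ⟨⟨a, s⟩, rfl⟩ := e.surjective k
      have h3 : ξ (e (a, false)) = 0 := by
        have : (2 : ℂ) • ξ (e (a, false)) = 0 := by
          calc (2 : ℂ) • ξ (e (a, false)) = (ξ (e (a, false)) - I • ξ (e (a, true))) +
                (ξ (e (a, false)) + I • ξ (e (a, true))) := by module
            _ = 0 := by rw [h1 a, h2 a, add_zero]
        exact (smul_eq_zero.1 this).resolve_left two_ne_zero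
      have h4 : ξ (e (a, true)) = 0 := by
        have := h2 a
        rw [h3, zero_add] at this
        exact (smul_eq_zero.1 this).resolve_left I_ne_zero
      cases s
      · exact h3
      · exact h4
    have hY : ∀ i, Yop (bb e c) (bb' e c) z i = ∑ k, c i k * ξ k := by
      intro i
      rw [← e.sum_comp, Fintype.sum_prod_type]
      simp only [Yop, LinearMap.coe_mk, AddHom.coe_mk]
      refine Finset.sum_congr rfl fun a _ => ?_
      simp only [Fintype.sum_bool, z, bb, bb']
      simp only [smul_mul_assoc, mul_smul_comm, mul_add, mul_sub, add_mul, sub_mul, smul_smul,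
        smul_add, smul_sub]
      match_scalars <;> ring_nf <;> simp only [I_sq] <;> norm_num
    have hT : Top (bb e c) (bb' e c) z = (μ / 2) • z := by
      have hrow : ∀ j, ∑ i, c i j * (∑ k, c i k * ξ k) = μ • ξ j := by
        intro j
        rw [← hξ j]
        simp only [Finset.mul_sum, Finset.sum_mul]
        rw [Finset.sum_comm]
        refine Finset.sum_congr rfl fun k _ => ?_
        refine Finset.sum_congr rfl fun i _ => ?_
        rw [mul_assoc]
      refine Prod.ext (funext fun a => ?_) (funext fun a => ?_)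
      · simp only [Top, LinearMap.comp_apply, Ydop, LinearMap.coe_mk, AddHom.coe_mk, hY]
        have : ∀ i ∈ (Finset.univ : Finset ι), bb' e c i a * (∑ k, c i k * ξ k) =
            (1 / 2 : ℂ) • (c i (e (a, false)) * (∑ k, c i k * ξ k)) -
              (1 / 2 * I : ℂ) • (c i (e (a, true)) * (∑ k, c i k * ξ k)) := by
          intro i _
          simp only [bb', smul_mul_assoc, sub_mul]
          module
        rw [Finset.sum_congr rfl this, Finset.sum_sub_distrib, ← Finset.smul_sum,
          ← Finset.smul_sum, hrow, hrow]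
        simp only [Prod.smul_fst, Pi.smul_apply, z]
        module
      · simp only [Top, LinearMap.comp_apply, Ydop, LinearMap.coe_mk, AddHom.coe_mk, hY]
        have : ∀ i ∈ (Finset.univ : Finset ι), bb e c i a * (∑ k, c i k * ξ k) =
            (1 / 2 : ℂ) • (c i (e (a, false)) * (∑ k, c i k * ξ k)) +
              (1 / 2 * I : ℂ) • (c i (e (a, true)) * (∑ k, c i k * ξ k)) := by
          intro i _
          simp only [bb, smul_mul_assoc, add_mul]
          module
        rw [Finset.sum_congr rfl this, Finset.sum_add_distrib, ← Finset.smul_sum,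
          ← Finset.smul_sum, hrow, hrow]
        simp only [Prod.smul_snd, Pi.smul_apply, z]
        module
    have hbound := eig_bound (isCAR c hc e) S hbS hbS' ?_ (μ / 2) z hz0
      (fun a => S.sub_mem (hξS _) (S.smul_mem _ (hξS _)))
      (fun a => S.add_mem (hξS _) (S.smul_mem _ (hξS _))) hT
    · rw [norm_div] at hbound
      have h2 : ‖(2 : ℂ)‖ = 2 := by simp
      rw [h2] at hbound
      linarith
    · intro r κ' v hv0 hv
      have hnt : Nontrivial A := ⟨⟨v, 0, hv0⟩⟩
      have hbn : ∀ i a, ‖bb e c i a‖ ≤ 1 := by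
        intro i a
        simp only [bb]
        rw [norm_smul]
        have h1 := norm_c_le c hs hc i (e (a, false))
        have h2 := norm_c_le c hs hc i (e (a, true))
        have h3 : ‖c i (e (a, false)) + I • c i (e (a, true))‖ ≤ 2 := by
          refine (norm_add_le _ _).trans ?_
          rw [norm_smul, norm_I, one_mul]
          linarith
        have h4 : ‖(1 / 2 : ℂ)‖ = 1 / 2 := by simp
        rw [h4]
        linarith
      have hbn' : ∀ i a, ‖bb' e c i a‖ ≤ 1 := by
        intro i a
        simp only [bb']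
        rw [norm_smul]
        have h1 := norm_c_le c hs hc i (e (a, false))
        have h2 := norm_c_le c hs hc i (e (a, true))
        have h3 : ‖c i (e (a, false)) - I • c i (e (a, true))‖ ≤ 2 := by
          refine (norm_sub_le _ _).trans ?_
          rw [norm_smul, norm_I, one_mul]
          linarith
        have h4 : ‖(1 / 2 : ℂ)‖ = 1 / 2 := by simp
        rw [h4]
        linarith
      have hgen : ∀ (x : A) (t : ℂ), x * v = t • v → ‖t‖ ≤ ‖x‖ := by
        intro x t hx
        have h1 : ‖t‖ * ‖v‖ ≤ ‖x‖ * ‖v‖ := by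
          rw [← norm_smul, ← hx]
          exact norm_mul_le _ _
        exact le_of_mul_le_mul_right h1 (norm_pos_iff.2 hv0)
      constructor
      · refine (hgen _ _ hv).trans ?_
        unfold F
        refine (norm_sum_le _ _).trans ?_
        refine (Finset.sum_le_card_nsmul _ _ 1 fun i _ => ?_).trans (by simp)
        refine (norm_mul_le _ _).trans ?_
        nlinarith [hbn i r, hbn' i r, norm_nonneg (bb e c i r), norm_nonneg (bb' e c i r)]
      · have h5 := sum_bb' (isCAR c hc e) r r
        rw [if_pos rfl] at h5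
        have h6 : (∑ i, bb e c i r * bb' e c i r) * v = ((Fintype.card ι : ℂ) - κ') • v := by
          rw [h5, sub_mul, hv, smul_mul_assoc, one_mul, sub_smul]
        refine (hgen _ _ h6).trans ?_
        refine (norm_sum_le _ _).trans ?_
        refine (Finset.sum_le_card_nsmul _ _ 1 fun i _ => ?_).trans (by simp)
        refine (norm_mul_le _ _).trans ?_
        nlinarith [hbn i r, hbn' i r, norm_nonneg (bb e c i r), norm_nonneg (bb' e c i r)]

end CStar

end Pool.Agent.H707R2.CAR
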