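import Pool.Agent.H707R2.CAR.Alg

set_option autoImplicit false

namespace Pool.Agent.H707R2.CAR

open Finset

variable {A : Type*} [Ring A] [Algebra ℂ A] {ι : Type*} [Fintype ι] [DecidableEq ι] {m : ℕ}
variable (b b' : ι → Fin m → A)

/-- Left multiplication acting diagonally and the vector part of `F c d`. -/
noncomputable def Gop (c d : Fin m) : ((Fin m → A) × (Fin m → A)) →ₗ[ℂ] ((Fin m → A) × (Fin m → A)) where
  toFun z := (fun a => F b b' c d * z.1 a - if a = d then z.1 c else 0,
    fun a => F b b' c d * z.2 a + if a = c then z.2 d else 0)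
  map_add' z w := by
    refine Prod.ext (funext fun a => ?_) (funext fun a => ?_)
    · simp only [Prod.fst_add, Pi.add_apply, mul_add]
      split_ifs <;> abel
    · simp only [Prod.snd_add, Pi.add_apply, mul_add]
      split_ifs <;> abel
  map_smul' t z := by
    refine Prod.ext (funext fun a => ?_) (funext fun a => ?_)
    · simp only [Prod.smul_fst, Pi.smul_apply, mul_smul_comm, RingHom.id_apply, smul_sub]
      split_ifs <;> simp
    · simp only [Prod.smul_snd, Pi.smul_apply, mul_smul_comm, RingHom.id_apply, smul_add]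
      split_ifs <;> simp

noncomputable def Uop (c d : Fin m) : ((Fin m → A) × (Fin m → A)) →ₗ[ℂ] ((Fin m → A) × (Fin m → A)) where
  toFun z := (fun a => U b' c d * z.1 a,
    fun a => U b' c d * z.2 a + (if a = c then z.1 d else 0) - if a = d then z.1 c else 0)
  map_add' z w := by
    refine Prod.ext (funext fun a => ?_) (funext fun a => ?_)
    · simp only [Prod.fst_add, Pi.add_apply, mul_add]
    · simp only [Prod.snd_add, Prod.fst_add, Pi.add_apply, mul_add]
      split_ifs <;> abel
  map_smul' t z := by
    refine Prod.ext (funext fun a => ?_) (funext fun a => ?_)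
    · simp only [Prod.smul_fst, Pi.smul_apply, mul_smul_comm, RingHom.id_apply]
    · simp only [Prod.smul_snd, Prod.smul_fst, Pi.smul_apply, mul_smul_comm, RingHom.id_apply,
        smul_add, smul_sub]
      split_ifs <;> simp

noncomputable def Yop : ((Fin m → A) × (Fin m → A)) →ₗ[ℂ] (ι → A) where
  toFun z := fun i => ∑ a, (b i a * z.1 a + b' i a * z.2 a)
  map_add' z w := by
    funext i
    simp only [Prod.fst_add, Prod.snd_add, Pi.add_apply, mul_add, ← Finset.sum_add_distrib]
    refine Finset.sum_congr rfl fun a _ => ?_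
    abel
  map_smul' t z := by
    funext i
    simp [Finset.smul_sum]

noncomputable def Ydop : (ι → A) →ₗ[ℂ] ((Fin m → A) × (Fin m → A)) where
  toFun ζ := (fun a => ∑ i, b' i a * ζ i, fun a => ∑ i, b i a * ζ i)
  map_add' z w := by
    refine Prod.ext (funext fun a => ?_) (funext fun a => ?_) <;>
      simp [mul_add, Finset.sum_add_distrib]
  map_smul' t z := by
    refine Prod.ext (funext fun a => ?_) (funext fun a => ?_) <;>
      simp [Finset.smul_sum]

noncomputable def Top : ((Fin m → A) × (Fin m → A)) →ₗ[ℂ] ((Fin m → A) × (Fin m → A)) :=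
  (Ydop b b').comp (Yop b b')

variable {b b'}

lemma Y_G (h : IsCAR b b') (c d : Fin m) (z : (Fin m → A) × (Fin m → A)) (i : ι) :
    Yop b b' (Gop b b' c d z) i = F b b' c d * Yop b b' z i := by
  simp only [Yop, Gop, LinearMap.coe_mk, AddHom.coe_mk, Finset.mul_sum, mul_add]
  have : ∀ a ∈ (Finset.univ : Finset (Fin m)),
      b i a * (F b b' c d * z.1 a - if a = d then z.1 c else 0) +
        (b' i a * (F b b' c d * z.2 a) + b' i a * (if a = c then z.2 d else 0)) =
      (F b b' c d * (b i a * z.1 a) + F b b' c d * (b' i a * z.2 a)) +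
        ((if a = c then b i d * z.1 c else 0) - (if a = d then b i d * z.1 c else 0)) +
        ((if a = c then b' i c * z.2 d else 0) - (if a = d then b' i c * z.2 d else 0)) := by
    intro a _
    rw [← mul_assoc (F b b' c d) (b i a), F_b h, ← mul_assoc (F b b' c d) (b' i a), F_b' h]
    split_ifs with h1 h2 h2
    all_goals (try subst h1)
    all_goals (try subst h2)
    all_goals noncomm_ring
  rw [Finset.sum_congr rfl this]
  simp only [Finset.sum_add_distrib, Finset.sum_sub_distrib, Finset.sum_ite_eq', Finset.mem_univ,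
    if_true, sub_self, add_zero]

lemma Yd_G (h : IsCAR b b') (c d : Fin m) (ζ : ι → A) :
    Ydop b b' (fun i => F b b' c d * ζ i) = Gop b b' c d (Ydop b b' ζ) := by
  simp only [Ydop, Gop, LinearMap.coe_mk, AddHom.coe_mk]
  refine Prod.ext (funext fun a => ?_) (funext fun a => ?_)
  · simp only
    have : ∀ i ∈ (Finset.univ : Finset ι), b' i a * (F b b' c d * ζ i) =
        F b b' c d * (b' i a * ζ i) - (if a = d then b' i c * ζ i else 0) := by
      intro i _
      rw [← mul_assoc (F b b' c d) (b' i a), F_b' h]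
      split_ifs with h1
      all_goals noncomm_ring
    rw [Finset.sum_congr rfl this, Finset.sum_sub_distrib, Finset.mul_sum]
    congr 1
    split_ifs <;> simp
  · simp only
    have : ∀ i ∈ (Finset.univ : Finset ι), b i a * (F b b' c d * ζ i) =
        F b b' c d * (b i a * ζ i) + (if a = c then b i d * ζ i else 0) := by
      intro i _
      rw [← mul_assoc (F b b' c d) (b i a), F_b h]
      split_ifs with h1
      all_goals noncomm_ring
    rw [Finset.sum_congr rfl this, Finset.sum_add_distrib, Finset.mul_sum]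
    congr 1
    split_ifs <;> simp

lemma Y_U (h : IsCAR b b') (c d : Fin m) (z : (Fin m → A) × (Fin m → A)) (i : ι) :
    Yop b b' (Uop b' c d z) i = U b' c d * Yop b b' z i := by
  simp only [Yop, Uop, LinearMap.coe_mk, AddHom.coe_mk, Finset.mul_sum, mul_add]
  have : ∀ a ∈ (Finset.univ : Finset (Fin m)),
      b i a * (U b' c d * z.1 a) +
        b' i a * (U b' c d * z.2 a + (if a = c then z.1 d else 0) - if a = d then z.1 c else 0) =
      (U b' c d * (b i a * z.1 a) + U b' c d * (b' i a * z.2 a)) +
        ((if a = c then b' i c * z.1 d else 0) - (if a = d then b' i c * z.1 d else 0)) +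
        ((if a = c then b' i d * z.1 c else 0) - (if a = d then b' i d * z.1 c else 0)) := by
    intro a _
    rw [← mul_assoc (U b' c d) (b i a), U_b h, ← mul_assoc (U b' c d) (b' i a), U_b' h]
    split_ifs with h1 h2 h2
    all_goals (try subst h1)
    all_goals (try subst h2)
    all_goals noncomm_ring
  rw [Finset.sum_congr rfl this]
  simp only [Finset.sum_add_distrib, Finset.sum_sub_distrib, Finset.sum_ite_eq', Finset.mem_univ,
    if_true, sub_self, add_zero]

lemma Yd_U (h : IsCAR b b') (c d : Fin m) (ζ : ι → A) :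
    Ydop b b' (fun i => U b' c d * ζ i) = Uop b' c d (Ydop b b' ζ) := by
  simp only [Ydop, Uop, LinearMap.coe_mk, AddHom.coe_mk]
  refine Prod.ext (funext fun a => ?_) (funext fun a => ?_)
  · simp only
    rw [Finset.mul_sum]
    refine Finset.sum_congr rfl fun i _ => ?_
    rw [← mul_assoc, ← mul_assoc, U_b' h]
  · simp only
    have : ∀ i ∈ (Finset.univ : Finset ι), b i a * (U b' c d * ζ i) =
        U b' c d * (b i a * ζ i) + (if a = c then b' i d * ζ i else 0)
          - (if a = d then b' i c * ζ i else 0) := by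
      intro i _
      rw [← mul_assoc (U b' c d) (b i a), U_b h]
      split_ifs with h1 h2 h2
      all_goals noncomm_ring
    rw [Finset.sum_congr rfl this, Finset.sum_sub_distrib, Finset.sum_add_distrib, Finset.mul_sum]
    congr 1
    · congr 1
      split_ifs <;> simp
    · split_ifs <;> simp

lemma T_G (h : IsCAR b b') (c d : Fin m) (z : (Fin m → A) × (Fin m → A)) :
    Top b b' (Gop b b' c d z) = Gop b b' c d (Top b b' z) := by
  simp only [Top, LinearMap.comp_apply]
  rw [← Yd_G h]
  congr 1
  funext i
  exact Y_G h c d z i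

lemma T_U (h : IsCAR b b') (c d : Fin m) (z : (Fin m → A) × (Fin m → A)) :
    Top b b' (Uop b' c d z) = Uop b' c d (Top b b' z) := by
  simp only [Top, LinearMap.comp_apply]
  rw [← Yd_U h]
  congr 1
  funext i
  exact Y_U h c d z i

/-! ### The weight operator -/

variable (b b')

/-- `∑ w_c F_cc`. -/
noncomputable def Phi (w : Fin m → ℂ) : A := ∑ c, w c • F b b' c c

/-- the total weight operator -/
noncomputable def phi (w : Fin m → ℂ) :
    ((Fin m → A) × (Fin m → A)) →ₗ[ℂ] ((Fin m → A) × (Fin m → A)) :=
  ∑ c, w c • Gop b b' c c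

variable {b b'}

lemma T_phi (h : IsCAR b b') (w : Fin m → ℂ) (z : (Fin m → A) × (Fin m → A)) :
    Top b b' (phi b b' w z) = phi b b' w (Top b b' z) := by
  simp only [phi, LinearMap.sum_apply, LinearMap.smul_apply, map_sum, map_smul, T_G h]

lemma phi_fst (w : Fin m → ℂ) (z : (Fin m → A) × (Fin m → A)) (a : Fin m) :
    (phi b b' w z).1 a = Phi b b' w * z.1 a - w a • z.1 a := by
  simp only [phi, LinearMap.sum_apply, LinearMap.smul_apply, Prod.fst_sum, Finset.sum_apply,
    Prod.smul_fst, Pi.smul_apply, Gop, LinearMap.coe_mk, AddHom.coe_mk, Phi, Finset.sum_mul,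
    smul_sub, smul_mul_assoc, Finset.sum_sub_distrib, smul_ite, smul_zero]
  congr 1
  simp

lemma phi_snd (w : Fin m → ℂ) (z : (Fin m → A) × (Fin m → A)) (a : Fin m) :
    (phi b b' w z).2 a = Phi b b' w * z.2 a + w a • z.2 a := by
  simp only [phi, LinearMap.sum_apply, LinearMap.smul_apply, Prod.snd_sum, Finset.sum_apply,
    Prod.smul_snd, Pi.smul_apply, Gop, LinearMap.coe_mk, AddHom.coe_mk, Phi, Finset.sum_mul,
    smul_add, smul_mul_assoc, Finset.sum_add_distrib, smul_ite, smul_zero]
  congr 1
  simp

lemma Phi_b (h : IsCAR b b') (w : Fin m → ℂ) (i : ι) (a : Fin m) :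
    Phi b b' w * b i a = b i a * Phi b b' w - w a • b i a := by
  simp only [Phi, Finset.sum_mul, Finset.mul_sum, smul_mul_assoc, mul_smul_comm, F_b h,
    smul_sub, Finset.sum_sub_distrib, smul_ite, smul_zero]
  congr 1
  simp

lemma Phi_b' (h : IsCAR b b') (w : Fin m → ℂ) (i : ι) (a : Fin m) :
    Phi b b' w * b' i a = b' i a * Phi b b' w + w a • b' i a := by
  simp only [Phi, Finset.sum_mul, Finset.mul_sum, smul_mul_assoc, mul_smul_comm, F_b' h,
    smul_add, Finset.sum_add_distrib, smul_ite, smul_zero]
  congr 1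
  simp

lemma Phi_F (h : IsCAR b b') (w : Fin m → ℂ) (c d : Fin m) :
    Phi b b' w * F b b' c d = F b b' c d * Phi b b' w + (w c - w d) • F b b' c d := by
  conv_lhs => rw [F]
  conv_rhs => rw [F]
  rw [Finset.mul_sum, Finset.sum_mul, Finset.smul_sum, ← Finset.sum_add_distrib]
  refine Finset.sum_congr rfl fun i _ => ?_
  rw [← mul_assoc, Phi_b' h, add_mul, mul_assoc, Phi_b h, mul_sub, sub_smul, smul_mul_assoc,
    mul_smul_comm, mul_assoc]
  abel

lemma Phi_U (h : IsCAR b b') (w : Fin m → ℂ) (c d : Fin m) :
    Phi b b' w * U b' c d = U b' c d * Phi b b' w + (w c + w d) • U b' c d := by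
  conv_lhs => rw [U]
  conv_rhs => rw [U]
  rw [Finset.mul_sum, Finset.sum_mul, Finset.smul_sum, ← Finset.sum_add_distrib]
  refine Finset.sum_congr rfl fun i _ => ?_
  rw [← mul_assoc, Phi_b' h, add_mul, mul_assoc, Phi_b' h, mul_add, add_smul, smul_mul_assoc,
    mul_smul_comm, mul_assoc]
  abel

lemma phi_G (h : IsCAR b b') (w : Fin m → ℂ) (c d : Fin m) (z : (Fin m → A) × (Fin m → A)) :
    phi b b' w (Gop b b' c d z) = Gop b b' c d (phi b b' w z) + (w c - w d) • Gop b b' c d z := by
  refine Prod.ext (funext fun a => ?_) (funext fun a => ?_)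
  · simp only [phi_fst, Prod.fst_add, Prod.smul_fst, Pi.add_apply, Pi.smul_apply]
    simp only [Gop, LinearMap.coe_mk, AddHom.coe_mk, phi_fst]
    rw [mul_sub, ← mul_assoc, Phi_F h]
    split_ifs with h1
    · subst h1
      simp only [mul_sub, add_mul, mul_smul_comm, smul_mul_assoc, mul_assoc]
      module
    · simp only [mul_sub, add_mul, mul_smul_comm, smul_mul_assoc, mul_assoc, mul_zero]
      module
  · simp only [phi_snd, Prod.snd_add, Prod.smul_snd, Pi.add_apply, Pi.smul_apply]
    simp only [Gop, LinearMap.coe_mk, AddHom.coe_mk, phi_snd]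
    rw [mul_add, ← mul_assoc, Phi_F h]
    split_ifs with h1
    · subst h1
      simp only [mul_add, add_mul, mul_smul_comm, smul_mul_assoc, mul_assoc]
      module
    · simp only [mul_add, add_mul, mul_smul_comm, smul_mul_assoc, mul_assoc, mul_zero]
      module

lemma phi_U (h : IsCAR b b') (w : Fin m → ℂ) (c d : Fin m) (z : (Fin m → A) × (Fin m → A)) :
    phi b b' w (Uop b' c d z) = Uop b' c d (phi b b' w z) + (w c + w d) • Uop b' c d z := by
  refine Prod.ext (funext fun a => ?_) (funext fun a => ?_)
  · simp only [phi_fst, Prod.fst_add, Prod.smul_fst, Pi.add_apply, Pi.smul_apply]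
    simp only [Uop, LinearMap.coe_mk, AddHom.coe_mk, phi_fst]
    rw [← mul_assoc, Phi_U h]
    simp only [mul_sub, add_mul, mul_smul_comm, smul_mul_assoc, mul_assoc]
    module
  · simp only [phi_snd, Prod.snd_add, Prod.smul_snd, Pi.add_apply, Pi.smul_apply]
    simp only [Uop, LinearMap.coe_mk, AddHom.coe_mk, phi_snd, phi_fst]
    rw [mul_sub, mul_add, ← mul_assoc, Phi_U h]
    split_ifs with h1 h2 h2
    · subst h1; subst h2
      simp only [mul_add, add_mul, mul_smul_comm, smul_mul_assoc, mul_assoc]
      module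
    · subst h1
      simp only [mul_add, add_mul, mul_smul_comm, smul_mul_assoc, mul_assoc, mul_zero]
      module
    · subst h2
      simp only [mul_add, add_mul, mul_smul_comm, smul_mul_assoc, mul_assoc, mul_zero]
      module
    · simp only [mul_add, add_mul, mul_smul_comm, smul_mul_assoc, mul_assoc, mul_zero]
      module

end Pool.Agent.H707R2.CAR
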